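import Pool.Agent.W600.DM.Proj

/-!
# Dynamical Mordell-Lang for endomorphisms of `P^N` with a power map at infinity

Definitions (in `Pool.Agent.W600.DM`):
* `sys d a Q`: the system `(a_0 X_0^d, a_1 X_1^d + X_0 Q_1, ..., a_N X_N^d + X_0 Q_N)`, where the
  `Q_i` are forms of degree `d - 1` in `X_0, ..., X_N`; for nonzero `a_j` these are the
  endomorphisms of `P^N` of degree `d` for which the hyperplane `X_0 = 0` is totally invariant and
  which are given by `[a_1 X_1^d : ... : a_N X_N^d]` on this hyperplane;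
* `DMLAt F α`: for every set `V` of complex polynomials the set of the `n` such that the `n`-th
  iterate of `α` under `F` is a common zero of `V` is a finite union of arithmetic progressions
  `{a + b k : k ≥ 0}` (`b = 0` allowed).
-/

set_option autoImplicit false

open MvPolynomial Pool.Agent.W600.DM

namespace Pool.Agent.Results.MP_b15c9e_ag.PowerMapAtInfinity

/-- **Dynamical Mordell-Lang for perturbed power maps of `P^N` at `p`-adically dominated points,
`p ∣ d`, and at almost all rational points.**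
(1) Let `p` be a prime dividing `d`, `L` a field with embeddings `σ : L → ℂ`, `τ : L → ℂ_p`, and
`F_j = a_j X_j^d + P_j` (`0 ≤ j ≤ N`) with forms `P_j` over `L` whose coefficients have `p`-adic
absolute value at most `1`, and `|a_j| = 1`. Let `α` be a point with nonzero coordinates in `L` such
that `|α^β| < |α_j|^d` (`p`-adically) for all monomials `X^β` occurring in `P_j`, for all `j`. Then
`DMLAt F α`.
(2) Let `N ≥ 1`, `a_0, ..., a_N` nonzero integers and `ε > 0`. There is `D ≥ 1` such that for all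
`d ≥ 2` divisible by `D` and ALL forms `Q_1, ..., Q_N` over `ℤ` of degree `d - 1` in
`X_0, ..., X_N` the system `F = (a_0 X_0^d, a_1 X_1^d + X_0 Q_1, ..., a_N X_N^d + X_0 Q_N)` has no
common zero but `0` and the proportion, among the rational points of `P^N` of height at most `H`
(given by primitive integral vectors), of those failing `DMLAt F` is at most `ε`, for
`H ≥ H₀`. -/
theorem result :
    (∀ (p : ℕ) [Fact p.Prime] (N d : ℕ), 2 ≤ d → p ∣ d →
      ∀ (L : Type) [Field L] (σ : L →+* ℂ) (τ : L →+* ℂ_[p]) (a : Fin (N + 1) → L)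
        (P : Fin (N + 1) → MvPolynomial (Fin (N + 1)) L),
        (∀ j, ‖τ (a j)‖ = 1) → (∀ j, (P j).IsHomogeneous d) →
        (∀ j β, ‖τ (coeff β (P j))‖ ≤ 1) →
        ∀ α : Fin (N + 1) → L, (∀ j, α j ≠ 0) →
          (∀ j, ∀ β ∈ (P j).support, ∏ k, ‖τ (α k)‖ ^ (β k) < ‖τ (α j)‖ ^ d) →
          DMLAt (fun j => map σ (C (a j) * X j ^ d + P j)) (fun j => σ (α j))) ∧
    (∀ N : ℕ, 1 ≤ N → ∀ a : Fin (N + 1) → ℤ, (∀ j, a j ≠ 0) → ∀ ε : ℝ, 0 < ε →
      ∃ D : ℕ, 1 ≤ D ∧ ∀ d : ℕ, 2 ≤ d → D ∣ d →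
        ∀ Q : Fin N → MvPolynomial (Fin (N + 1)) ℤ, (∀ i, (Q i).IsHomogeneous (d - 1)) →
        (∀ x : Fin (N + 1) → ℂ,
          (∀ j, eval x (map (Int.castRingHom ℂ) (sys d a Q j)) = 0) → x = 0) ∧
        ∃ H₀ : ℕ, ∀ H : ℕ, H₀ ≤ H →
          (({α : Fin (N + 1) → ℤ | (∀ j, |α j| ≤ (H : ℤ)) ∧ Finset.univ.gcd α = 1 ∧
            ¬ DMLAt (fun j => map (Int.castRingHom ℂ) (sys d a Q j)) (fun j => (α j : ℂ))} :
              Set (Fin (N + 1) → ℤ)).ncard : ℝ) ≤
            ε * (({α : Fin (N + 1) → ℤ | (∀ j, |α j| ≤ (H : ℤ)) ∧ Finset.univ.gcd α = 1} :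
              Set (Fin (N + 1) → ℤ)).ncard : ℝ)) := by
  refine ⟨fun _ _ _ _ hd hpd _ _ σ τ a P ha _ hP1 α hα hα1 => dmlAt hd hpd σ τ a ha P hP1 α hα hα1,
    fun N hN a ha ε hε => ?_⟩
  obtain ⟨D, hD, h⟩ := proj_density N hN a ha ε hε
  refine ⟨D, hD, fun d hd hDd Q hQ => ⟨fun x hx => ?_, h d hd hDd Q hQ⟩⟩
  have hd0 : d ≠ 0 := by omega
  have h0 : x 0 = 0 := by
    have h1 := hx 0
    simp only [sys, Fin.cons_zero, map_mul, map_pow, map_C, map_X, eval_C, eval_X] at h1
    rcases mul_eq_zero.mp h1 with h2 | h2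
    · exact absurd h2 (by simpa using ha 0)
    · exact pow_eq_zero_iff hd0 |>.mp h2
  funext j
  refine Fin.cases ?_ (fun i => ?_) j
  · exact h0
  · have h1 := hx i.succ
    simp only [sys, Fin.cons_succ, map_add, map_mul, map_pow, map_C, map_X, eval_C, eval_X, h0,
      zero_mul, add_zero] at h1
    rcases mul_eq_zero.mp h1 with h2 | h2
    · exact absurd h2 (by simpa using ha i.succ)
    · exact pow_eq_zero_iff hd0 |>.mp h2

end Pool.Agent.Results.MP_b15c9e_ag.PowerMapAtInfinity
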